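import Pool.Agent.L5helper26.DM.Agree
import Pool.Agent.L5helper26.DM.Unif

/-!
# MP_b15c9e_ag: Dynamical Mordell-Lang for families with strictly critically finite members

**Families.** Let `F_{t,0}, …, F_{t,N}` be forms of degree `d ≥ 1` in `N + 1` variables whose
coefficients are polynomials in the parameter `t` with algebraic coefficients (`member F t`).

**Strict critical finiteness** (Ueda, Jonsson; `StrictlyCriticallyFinite`). An endomorphism `Φ` of `ℙ^N`
with critical locus `C` is strictly critically finite if there are closed sets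
`ℙ^N = D_0, D_1, …, D_k = ∅` with `Φ(D_i) ⊆ D_i` such that for all `i < k` some iterate of `Φ` maps
`D_i ∩ C` into `D_{i+1}`. In dimension one: all critical points are preperiodic and none is
periodic.

**Theorem, first part.** Let `A` be a nonempty finite set of algebraic numbers `a` such that the member
`F_a` is a strictly critically finite endomorphism of `ℙ^N`. There is an integer `m ≥ 1` such that for
all complex numbers `t`: either `F_t` is an endomorphism with the Dynamical Mordell-Lang property (the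
return sets of all points to all closed sets are finite unions of arithmetic progressions), or `t` is
algebraic, not in `A`, and for all `a` in `A` some `m^k / (t - a)` is an algebraic integer. In
particular all transcendental `t` are covered.

**Second part.** Let `b_1, b_2, b_3` be three different points of the projective line over the
algebraic numbers, let `m ≥ 1` and let `E` be a number field in `ℂ`. For all but finitely many `t` in
`E` with the property (`*`) the member `F_t` is an endomorphism with the Dynamical Mordell-Lang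
property.

(`*`) For `i = 1, 2, 3`: `t` is integral with respect to `b_i` outside `m` (that is, `m^k / (t - b_i)`,
or `m^k t` if `b_i` is the point at infinity, is an algebraic integer for some `k`), or `b_i` is
finite and the member `F_{b_i}` is a strictly critically finite endomorphism.

So if three members with algebraic parameters are strictly critically finite, then the Dynamical
Mordell-Lang conjecture holds for all but finitely many of the `F_t` with `t` in any given number
field; two such members suffice for the `t` in `O_E[1/m]`, and one for the units of `O_E[1/m]`.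

**Third part, an example.** For all `N` and `d ≥ 2` the family

  `x_i ↦ (x_0 - t x_{i+1})^d`, `i = 0, …, N`, `x_{N+1} = x_0`,

has the strictly critically finite members `t = 1 - ζ`, `ζ^d = 1`, `ζ ≠ 1` (for `N = 2`, `d = 2` this is
the map of Fornæss and Sibony). So there is `m ≥ 1` such that for all complex `t` the member is an
endomorphism of `ℙ^N` with the Dynamical Mordell-Lang property, or `t` is algebraic and for all these `ζ`
some `m^k / (t - 1 + ζ)` is an algebraic integer; and if `d ≥ 4` then for every number field `E` only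
finitely many `t` in `E` are exceptions.

The proof. By the Nullstellensatz (`R847.PC`), modulo almost all primes a strictly critically finite
endomorphism has no cycle that contains a critical point. If `t` is near to `a` for an embedding of `ℂ`
into the algebraic closure of `ℚ_p` then `F_t` and `F_a` have the same reduction, so all orbits of
`F_t` are étale modulo `p` from some time on, and `p`-adic interpolation applies. For a
transcendental `t` there is such an embedding: choose first the images of the algebraic numbers. If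
`t` is algebraic and not near to `a` for any of these embeddings then `t` is integral with respect to
`a` outside the small primes, and in the second part there are finitely many such `t` by the unit
equation.
-/

set_option autoImplicit false

open MvPolynomial

namespace Pool.Agent.Results.MP_b15c9e_ag.CriticallyFiniteMembers

/-- The member at `t` of a family of systems of forms. -/
noncomputable def member {N : ℕ} (F : Fin (N + 1) → MvPolynomial (Fin (N + 1)) (Polynomial ℂ))
    (t : ℂ) : Fin (N + 1) → MvPolynomial (Fin (N + 1)) ℂ :=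
  fun i => MvPolynomial.map (Polynomial.evalRingHom t) (F i)

/-- The self-map of `ℂ^{N+1}` given by `N + 1` polynomials. -/
noncomputable def coneMap {N : ℕ} (f : Fin (N + 1) → MvPolynomial (Fin (N + 1)) ℂ)
    (x : Fin (N + 1) → ℂ) : Fin (N + 1) → ℂ :=
  fun i => eval x (f i)

/-- The forms define an endomorphism of projective space: they have no common zero. -/
def IsEndo {N : ℕ} (f : Fin (N + 1) → MvPolynomial (Fin (N + 1)) ℂ) : Prop :=
  ∀ x : Fin (N + 1) → ℂ, (∀ i, eval x (f i) = 0) → x = 0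

/-- The return set of the point `[z]` to the closed set of the common zeros of the members of `S`. -/
def returnSet {N : ℕ} (f : Fin (N + 1) → MvPolynomial (Fin (N + 1)) ℂ)
    (S : Set (MvPolynomial (Fin (N + 1)) ℂ)) (z : Fin (N + 1) → ℂ) : Set ℕ :=
  {n | ∀ g ∈ S, eval ((coneMap f)^[n] z) g = 0}

/-- A finite union of arithmetic progressions `{a + k n}`, where `k = 0` is allowed. -/
def FiniteUnionAP (A : Set ℕ) : Prop :=
  ∃ T : Finset (ℕ × ℕ), A = {n : ℕ | ∃ q ∈ T, ∃ m : ℕ, n = q.1 * m + q.2}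

/-- The Dynamical Mordell-Lang property, for all closed sets and all points of projective space. -/
def DML {N : ℕ} (f : Fin (N + 1) → MvPolynomial (Fin (N + 1)) ℂ) : Prop :=
  ∀ S : Set (MvPolynomial (Fin (N + 1)) ℂ), (∀ g ∈ S, ∃ e : ℕ, g.IsHomogeneous e) →
    ∀ a : Fin (N + 1) → ℂ, a ≠ 0 → FiniteUnionAP (returnSet f S a)

/-- The closed subset of projective space given by a set of forms (as a set of nonzero vectors). -/
def zeroSet {N : ℕ} (S : Set (MvPolynomial (Fin (N + 1)) ℂ)) : Set (Fin (N + 1) → ℂ) :=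
  {x | x ≠ 0 ∧ ∀ g ∈ S, eval x g = 0}

/-- The critical locus: the zeros of the Jacobian determinant. -/
def critical {N : ℕ} (f : Fin (N + 1) → MvPolynomial (Fin (N + 1)) ℂ) : Set (Fin (N + 1) → ℂ) :=
  {x | (Matrix.of fun i j => eval x (pderiv j (f i))).det = 0}

/-- `f` is strictly critically finite. -/
def StrictlyCriticallyFinite {N : ℕ} (f : Fin (N + 1) → MvPolynomial (Fin (N + 1)) ℂ) : Prop :=
  ∃ (k : ℕ) (D : ℕ → Set (MvPolynomial (Fin (N + 1)) ℂ)),
    (∀ i, ∀ g ∈ D i, ∃ e : ℕ, g.IsHomogeneous e) ∧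
    zeroSet (D 0) = {x | x ≠ 0} ∧ zeroSet (D k) = ∅ ∧
    (∀ i ≤ k, ∀ x ∈ zeroSet (D i), coneMap f x ∈ zeroSet (D i)) ∧
    ∀ i < k, ∃ m : ℕ, ∀ x ∈ zeroSet (D i), x ∈ critical f →
      (coneMap f)^[m] x ∈ zeroSet (D (i + 1))

/-- `t` is integral outside `m` with respect to the point `b` of the projective line (`none` is the
point at infinity). -/
def IntegralAt (m : ℕ) : Option ℂ → ℂ → Prop
  | none, t => ∃ k : ℕ, IsIntegral ℤ ((m : ℂ) ^ k * t)
  | some z, t => ∃ k : ℕ, IsIntegral ℤ ((m : ℂ) ^ k * (t - z)⁻¹)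

/-- The family of the forms `(x_0 - t x_{i+1})^d`, `i = 0, …, N`, with `x_{N+1} = x_0`. -/
noncomputable def fsFamily (N d : ℕ) : Fin (N + 1) → MvPolynomial (Fin (N + 1)) (Polynomial ℂ) :=
  fun i => (X 0 - C Polynomial.X * X (i + 1)) ^ d

/-- The criterion for one parameter. -/
theorem near_member {N d : ℕ} (hd : 1 ≤ d)
    (F : Fin (N + 1) → MvPolynomial (Fin (N + 1)) (Polynomial ℂ))
    (hF : ∀ i, (F i).IsHomogeneous d) (a : ℂ) (h0 : IsEndo (member F a))
    (h : StrictlyCriticallyFinite (member F a)) :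
    (∃ s : Finset ℂ, ∀ t, Pool.Agent.Y199.DM.Near s a t → IsEndo (member F t) ∧ DML (member F t)) ∧
      (IsAlgebraic ℚ a → (∀ i κ k, IsAlgebraic ℚ (((F i).coeff κ).coeff k)) →
        ∀ t, Transcendental ℚ t → IsEndo (member F t) ∧ DML (member F t)) := by
  classical
  obtain ⟨k, D, -, hD0, hDk, hinv, hcrit⟩ := h
  have hch : Pool.Agent.L5helper26.DM.Chain (member F a) k D := by
    refine ⟨fun i hi z hz hzi => (hinv i hi z ⟨hz, hzi⟩).2, fun i hi => ?_, fun z hz => ?_⟩
    · obtain ⟨m, hm⟩ := hcrit i hi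
      exact ⟨m, fun z hz hzi hj => (hm z ⟨hz, hzi⟩ hj).2⟩
    · by_contra hno
      push Not at hno
      have : z ∈ zeroSet (D k) := ⟨hz, hno⟩
      rw [hDk] at this
      exact this
  exact Pool.Agent.L5helper26.DM.near_scf2 hd (member F) (fun i κ => (F i).coeff κ)
    (fun t i κ => by
      rw [member, MvPolynomial.coeff_map]
      rfl) (by
      refine (Finset.finite_toSet (Finset.univ.biUnion fun i : Fin (N + 1) =>
        (F i).support.image fun κ => (i, κ))).subset ?_
      rintro ⟨i, κ⟩ hq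
      rw [Finset.mem_coe, Finset.mem_biUnion]
      exact ⟨i, Finset.mem_univ _, Finset.mem_image.2
        ⟨κ, MvPolynomial.mem_support_iff.2 hq, rfl⟩⟩)
    (fun t i => (hF i).map _) a h0 k D hch (fun z hz => by
      have : z ∈ zeroSet (D 0) := by
        rw [hD0]
        exact hz
      exact this.2)

theorem near_self (s : Finset ℂ) (a : ℂ) : Pool.Agent.Y199.DM.Near s a a := by
  obtain ⟨B, hB⟩ := Pool.Agent.TH838.PR.emb_finite s
  obtain ⟨p, hpB, hp⟩ := Nat.exists_infinite_primes (B + 1)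
  have hpf : Fact p.Prime := ⟨hp⟩
  obtain ⟨τ, hτ⟩ := hB p (by omega)
  exact ⟨p, hpf, τ, hτ, by rw [sub_self, map_zero, norm_zero]; exact one_pos⟩

theorem first {N d : ℕ} (hd : 1 ≤ d)
    (F : Fin (N + 1) → MvPolynomial (Fin (N + 1)) (Polynomial ℂ))
    (hF : ∀ i, (F i).IsHomogeneous d)
    (halg : ∀ i κ k, IsAlgebraic ℚ (((F i).coeff κ).coeff k))
    (A : Finset ℂ) (hA0 : A.Nonempty)
    (hA : ∀ a ∈ A, IsAlgebraic ℚ a ∧ IsEndo (member F a) ∧
      StrictlyCriticallyFinite (member F a)) :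
    ∃ m : ℕ, 1 ≤ m ∧ ∀ t : ℂ, (IsEndo (member F t) ∧ DML (member F t)) ∨
      (IsAlgebraic ℚ t ∧ t ∉ A ∧ ∀ a ∈ A, ∃ k : ℕ, IsIntegral ℤ ((m : ℂ) ^ k * (t - a)⁻¹)) := by
  classical
  have h1 : ∀ a : ℂ, ∃ s : Finset ℂ, a ∈ A → ∀ t, Pool.Agent.Y199.DM.Near s a t →
      IsEndo (member F t) ∧ DML (member F t) := by
    intro a
    by_cases ha : a ∈ A
    · obtain ⟨s, hs⟩ := (near_member hd F hF a (hA a ha).2.1 (hA a ha).2.2).1
      exact ⟨s, fun _ => hs⟩
    · exact ⟨∅, fun h => absurd h ha⟩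
  choose s hs using h1
  choose m hm1 hm using fun a => Pool.Agent.L5helper26.DM.near_or_integral (s a)
  refine ⟨∏ a ∈ A, m a, Finset.one_le_prod' fun a _ => hm1 a, fun t => ?_⟩
  by_cases hgood : IsEndo (member F t) ∧ DML (member F t)
  · exact Or.inl hgood
  right
  have htalg : IsAlgebraic ℚ t := by
    by_contra htr
    obtain ⟨a, ha⟩ := hA0
    exact hgood ((near_member hd F hF a (hA a ha).2.1 (hA a ha).2.2).2 (hA a ha).1 halg t htr)
  have htA : t ∉ A := fun h => hgood (hs t h t (near_self _ t))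
  refine ⟨htalg, htA, fun a ha => ?_⟩
  rcases hm a a t (hA a ha).1 htalg (fun h => htA (h ▸ ha)) with h | ⟨k, hk⟩
  · exact absurd (hs a ha t h) hgood
  · refine ⟨k, ?_⟩
    obtain ⟨c, hc⟩ := Finset.dvd_prod_of_mem m ha
    rw [hc, Nat.cast_mul, mul_pow]
    have h2 : ((m a : ℕ) : ℂ) ^ k * (c : ℂ) ^ k * (t - a)⁻¹ =
        ((c : ℕ) : ℂ) ^ k * (((m a : ℕ) : ℂ) ^ k * (t - a)⁻¹) := by ring
    rw [h2]
    refine IsIntegral.mul (IsIntegral.pow ?_ k) hk
    exact isIntegral_algebraMap (R := ℤ) (A := ℂ) (x := (c : ℤ)) |> fun h => by simpa using h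

theorem second {N d : ℕ} (hd : 1 ≤ d)
    (F : Fin (N + 1) → MvPolynomial (Fin (N + 1)) (Polynomial ℂ))
    (hF : ∀ i, (F i).IsHomogeneous d)
    (E : IntermediateField ℚ ℂ) [FiniteDimensional ℚ E] (m : ℕ) (hm : 1 ≤ m)
    (b : Fin 3 → Option ℂ) (hb : Function.Injective b) (halg : ∀ i, ∀ z ∈ b i, IsAlgebraic ℚ z) :
    {t : ℂ | t ∈ E ∧
      (∀ i, IntegralAt m (b i) t ∨
        ∃ z ∈ b i, IsEndo (member F z) ∧ StrictlyCriticallyFinite (member F z)) ∧
      ¬ (IsEndo (member F t) ∧ DML (member F t))}.Finite := by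
  classical
  have h1 : ∀ i, ∃ s : Finset ℂ,
      (∃ z ∈ b i, IsEndo (member F z) ∧ StrictlyCriticallyFinite (member F z)) →
      ∃ z ∈ b i, ∀ t, Pool.Agent.Y199.DM.Near s z t →
        IsEndo (member F t) ∧ DML (member F t) := by
    intro i
    by_cases h : ∃ z ∈ b i, IsEndo (member F z) ∧ StrictlyCriticallyFinite (member F z)
    · obtain ⟨z, hz, hz0, hz1⟩ := h
      obtain ⟨s, hs⟩ := (near_member hd F hF z hz0 hz1).1
      exact ⟨s, fun _ => ⟨z, hz, hs⟩⟩
    · exact ⟨∅, fun h' => absurd h' h⟩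
  choose s hs using h1
  refine (Pool.Agent.Y199.DM.near_line E b hb halg s (fun _ => AlgEquiv.refl) m hm).subset ?_
  rintro t ⟨htE, ht, hbad⟩
  refine ⟨htE, fun i => ?_⟩
  rcases ht i with h | h
  · refine Or.inl ?_
    rcases hbi : b i with _ | z
    · rw [hbi] at h
      exact h
    · rw [hbi] at h
      exact h
  · obtain ⟨z, hz, hz'⟩ := hs i h
    exact Or.inr ⟨z, hz, fun hn => hbad (hz' t hn)⟩

/-! ### The example -/

theorem member_fs (N d : ℕ) (t : ℂ) : member (fsFamily N d) t =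
    fun i => ((X 0 - C (1 - (1 - t)) * X (i + 1)) ^ d : MvPolynomial (Fin (N + 1)) ℂ) := by
  funext i
  rw [member, fsFamily, map_pow, map_sub, map_mul, map_X, map_X, map_C]
  have h1 : (Polynomial.evalRingHom t) Polynomial.X = 1 - (1 - t) := by
    rw [Polynomial.coe_evalRingHom, Polynomial.eval_X]
    ring
  rw [h1]

theorem fs_homogeneous (N d : ℕ) : ∀ i, (fsFamily N d i).IsHomogeneous d := by
  intro i
  have h1 : (X 0 - C Polynomial.X * X (i + 1) :
      MvPolynomial (Fin (N + 1)) (Polynomial ℂ)).IsHomogeneous 1 :=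
    (isHomogeneous_X _ _).sub (by
      have := (isHomogeneous_C (Fin (N + 1)) (Polynomial.X : Polynomial ℂ)).mul
        (isHomogeneous_X (Polynomial ℂ) (i + 1))
      rwa [zero_add] at this)
  have h2 := h1.pow d
  rwa [one_mul] at h2

theorem fs_algebraic (N d : ℕ) (i : Fin (N + 1)) (κ : Fin (N + 1) →₀ ℕ) (k : ℕ) :
    IsAlgebraic ℚ (((fsFamily N d i).coeff κ).coeff k) := by
  have h1 : fsFamily N d i = map (Polynomial.mapRingHom (algebraMap (algebraicClosure ℚ ℂ) ℂ))
      ((X 0 - C Polynomial.X * X (i + 1)) ^ d) := by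
    rw [fsFamily, map_pow, map_sub, map_mul, map_X, map_X, map_C, Polynomial.coe_mapRingHom,
      Polynomial.map_X]
  rw [h1, coeff_map, Polynomial.coe_mapRingHom, Polynomial.coeff_map]
  exact mem_algebraicClosure_iff.1 (Subtype.mem _)

theorem fs_endo {N d : ℕ} {ζ : ℂ} (hd : 1 ≤ d) (hζ : ζ ^ d = 1) (hζ1 : ζ ≠ 1) :
    IsEndo (member (fsFamily N d) (1 - ζ)) := by
  have hd0 : d ≠ 0 := by omega
  have hζ0 : ζ ≠ 0 := by
    rintro rfl
    rw [zero_pow hd0] at hζ
    exact zero_ne_one hζ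
  rw [member_fs, sub_sub_cancel]
  exact fun x hx => Pool.Agent.R847.PC.fs_ne hd0 hζ1 hζ0 x hx

theorem fs_strict {N d : ℕ} {ζ : ℂ} (hd : 1 ≤ d) (hζ : ζ ^ d = 1) (hζ1 : ζ ≠ 1) :
    StrictlyCriticallyFinite (member (fsFamily N d) (1 - ζ)) := by
  have hd0 : d ≠ 0 := by omega
  have hendo := fs_endo (N := N) hd hζ hζ1
  rw [member_fs, sub_sub_cancel] at hendo ⊢
  set f : Fin (N + 1) → MvPolynomial (Fin (N + 1)) ℂ :=
    fun i => (X 0 - C (1 - ζ) * X (i + 1)) ^ d with hf
  have hne : ∀ x : Fin (N + 1) → ℂ, x ≠ 0 → coneMap f x ≠ 0 := fun x hx h =>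
    hx (hendo x fun i => congrFun h i)
  have hneit : ∀ (x : Fin (N + 1) → ℂ), x ≠ 0 → ∀ n, (coneMap f)^[n] x ≠ 0 := by
    intro x hx n
    induction n with
    | zero => exact hx
    | succ n ih =>
      rw [Function.iterate_succ_apply']
      exact hne _ ih
  have hone : zeroSet (N := N) {1} = ∅ := by
    ext x
    constructor
    · rintro ⟨-, h⟩
      have := h 1 rfl
      rw [map_one] at this
      exact one_ne_zero this
    · exact fun h => h.elim
  let D : ℕ → Set (MvPolynomial (Fin (N + 1)) ℂ) := fun i =>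
    if i = N + 1 then {1} else Set.range (Pool.Agent.R847.PC.vdm (N := N) (N + 2 - i))
  have hDlt : ∀ i, i < N + 1 → ∀ x, x ∈ zeroSet (D i) ↔
      x ≠ 0 ∧ Pool.Agent.R847.PC.nd x < N + 2 - i := by
    intro i hi x
    simp only [D, if_neg (show i ≠ N + 1 by omega)]
    rw [← Pool.Agent.R847.PC.nd_lt_iff]
    constructor
    · rintro ⟨h1, h2⟩
      exact ⟨h1, fun φ => h2 _ ⟨φ, rfl⟩⟩
    · rintro ⟨h1, h2⟩
      refine ⟨h1, ?_⟩
      rintro _ ⟨φ, rfl⟩
      exact h2 φ
  refine ⟨N + 1, D, ?_, ?_, ?_, ?_, ?_⟩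
  · intro i g hg
    by_cases hi : i = N + 1
    · simp only [D, if_pos hi, Set.mem_singleton_iff] at hg
      rw [hg]
      exact ⟨0, isHomogeneous_one _ _⟩
    · simp only [D, if_neg hi] at hg
      obtain ⟨φ, rfl⟩ := hg
      exact Pool.Agent.R847.PC.vdm_homogeneous _ _
  · ext x
    rw [hDlt 0 (by omega)]
    have := Pool.Agent.R847.PC.nd_le x
    constructor
    · exact fun h => h.1
    · exact fun h => ⟨h, by omega⟩
  · simp only [D, if_pos]
    exact hone
  · intro i hi x hx
    rcases Nat.lt_or_ge i (N + 1) with h | h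
    · rw [hDlt i h] at hx ⊢
      exact ⟨hne x hx.1, lt_of_le_of_lt (Pool.Agent.R847.PC.nd_fs_le x) hx.2⟩
    · have hi' : i = N + 1 := by omega
      simp only [D, if_pos hi', hone] at hx
      exact hx.elim
  · intro i hi
    refine ⟨N + 2, fun x hx hxc => ?_⟩
    rw [hDlt i hi] at hx
    have h1 := Pool.Agent.R847.PC.fs_drop hd0 hζ hζ1 x hx.1 hxc
    change Pool.Agent.R847.PC.nd ((coneMap f)^[N + 2] x) < _ at h1
    have h2 := Pool.Agent.R847.PC.nd_pos ((coneMap f)^[N + 2] x)
    rcases Nat.lt_or_ge (i + 1) (N + 1) with h | h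
    · rw [hDlt (i + 1) h]
      exact ⟨hneit x hx.1 _, by omega⟩
    · exfalso
      omega

theorem root_algebraic {d : ℕ} (hd : 1 ≤ d) {ζ : ℂ} (hζ : ζ ^ d = 1) : IsAlgebraic ℚ ζ := by
  refine ⟨Polynomial.X ^ d - 1, ?_, ?_⟩
  · exact Polynomial.X_pow_sub_C_ne_zero (by omega) 1
  · simp [hζ]

theorem fs_first {N d : ℕ} (hd : 2 ≤ d) : ∃ m : ℕ, 1 ≤ m ∧ ∀ t : ℂ,
    (IsEndo (member (fsFamily N d) t) ∧ DML (member (fsFamily N d) t)) ∨
      (IsAlgebraic ℚ t ∧ ∀ ζ : ℂ, ζ ^ d = 1 → ζ ≠ 1 →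
        ∃ k : ℕ, IsIntegral ℤ ((m : ℂ) ^ k * (t - (1 - ζ))⁻¹)) := by
  classical
  have hd0 : d ≠ 0 := by omega
  let A : Finset ℂ := ((Polynomial.nthRootsFinset d (1 : ℂ)).erase 1).image fun ζ => 1 - ζ
  have hmem : ∀ ζ : ℂ, ζ ^ d = 1 → ζ ≠ 1 → 1 - ζ ∈ A := by
    intro ζ h1 h2
    refine Finset.mem_image.2 ⟨ζ, Finset.mem_erase.2 ⟨h2, ?_⟩, rfl⟩
    exact (Polynomial.mem_nthRootsFinset (by omega) _).2 h1
  obtain ⟨m, hm1, hm⟩ := first (N := N) (d := d) (by omega) (fsFamily N d) (fs_homogeneous N d)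
    (fs_algebraic N d) A (by
      have h1 := Complex.isPrimitiveRoot_exp d hd0
      exact ⟨_, hmem _ h1.pow_eq_one (h1.ne_one (by omega))⟩) (by
      intro a ha
      obtain ⟨ζ, hζ, rfl⟩ := Finset.mem_image.1 ha
      obtain ⟨h2, h1⟩ := Finset.mem_erase.1 hζ
      rw [Polynomial.mem_nthRootsFinset (by omega)] at h1
      exact ⟨isAlgebraic_one.sub (root_algebraic (by omega) h1), fs_endo (by omega) h1 h2,
        fs_strict (by omega) h1 h2⟩)
  refine ⟨m, hm1, fun t => ?_⟩
  rcases hm t with h | ⟨h1, -, h2⟩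
  · exact Or.inl h
  · exact Or.inr ⟨h1, fun ζ hζ hζ1 => h2 _ (hmem ζ hζ hζ1)⟩

theorem fs_second {N d : ℕ} (hd : 4 ≤ d) (E : IntermediateField ℚ ℂ) [FiniteDimensional ℚ E] :
    {t : ℂ | t ∈ E ∧
      ¬ (IsEndo (member (fsFamily N d) t) ∧ DML (member (fsFamily N d) t))}.Finite := by
  have hd0 : d ≠ 0 := by omega
  obtain ⟨ω, hω⟩ : ∃ ω : ℂ, IsPrimitiveRoot ω d := ⟨_, Complex.isPrimitiveRoot_exp d hd0⟩
  have h1 : ∀ i : Fin 3, (ω ^ ((i : ℕ) + 1)) ^ d = 1 := by
    intro i
    rw [← pow_mul, Nat.mul_comm, pow_mul, hω.pow_eq_one, one_pow]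
  have h2 : ∀ i : Fin 3, ω ^ ((i : ℕ) + 1) ≠ 1 := by
    intro i h
    have h3 := hω.dvd_of_pow_eq_one _ h
    have h4 := Nat.le_of_dvd (by omega) h3
    omega
  refine (second (N := N) (d := d) (by omega) (fsFamily N d) (fs_homogeneous N d) E 1 le_rfl
    (fun i => some (1 - ω ^ ((i : ℕ) + 1))) (fun i j hij => ?_) (fun i z hz => ?_)).subset ?_
  · have h3 : 1 - ω ^ ((i : ℕ) + 1) = 1 - ω ^ ((j : ℕ) + 1) := Option.some.inj hij
    have h4 : ω ^ ((i : ℕ) + 1) = ω ^ ((j : ℕ) + 1) := sub_right_injective h3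
    have h5 := hω.pow_inj (by omega) (by omega) h4
    exact Fin.ext (by omega)
  · have h3 : 1 - ω ^ ((i : ℕ) + 1) = z := Option.some.inj hz
    rw [← h3]
    exact isAlgebraic_one.sub (root_algebraic (by omega) (h1 i))
  · rintro t ⟨htE, ht⟩
    exact ⟨htE, fun i => Or.inr ⟨_, rfl, fs_endo (by omega) (h1 i) (h2 i),
      fs_strict (by omega) (h1 i) (h2 i)⟩, ht⟩

/-- **Dynamical Mordell-Lang for families with strictly critically finite members.** -/
theorem result :
    (∀ (N d : ℕ), 1 ≤ d → ∀ F : Fin (N + 1) → MvPolynomial (Fin (N + 1)) (Polynomial ℂ),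
      (∀ i, (F i).IsHomogeneous d) →
      (∀ i κ k, IsAlgebraic ℚ (((F i).coeff κ).coeff k)) →
      ∀ A : Finset ℂ, A.Nonempty →
      (∀ a ∈ A, IsAlgebraic ℚ a ∧ IsEndo (member F a) ∧
        StrictlyCriticallyFinite (member F a)) →
      ∃ m : ℕ, 1 ≤ m ∧ ∀ t : ℂ, (IsEndo (member F t) ∧ DML (member F t)) ∨
        (IsAlgebraic ℚ t ∧ t ∉ A ∧
          ∀ a ∈ A, ∃ k : ℕ, IsIntegral ℤ ((m : ℂ) ^ k * (t - a)⁻¹))) ∧
    (∀ (N d : ℕ), 1 ≤ d → ∀ F : Fin (N + 1) → MvPolynomial (Fin (N + 1)) (Polynomial ℂ),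
      (∀ i, (F i).IsHomogeneous d) →
      ∀ (E : IntermediateField ℚ ℂ), FiniteDimensional ℚ E → ∀ m : ℕ, 1 ≤ m →
      ∀ b : Fin 3 → Option ℂ, Function.Injective b → (∀ i, ∀ z ∈ b i, IsAlgebraic ℚ z) →
      {t : ℂ | t ∈ E ∧
        (∀ i, IntegralAt m (b i) t ∨
          ∃ z ∈ b i, IsEndo (member F z) ∧ StrictlyCriticallyFinite (member F z)) ∧
        ¬ (IsEndo (member F t) ∧ DML (member F t))}.Finite) ∧
    (∀ (N d : ℕ), 2 ≤ d →
      (∀ ζ : ℂ, ζ ^ d = 1 → ζ ≠ 1 → IsEndo (member (fsFamily N d) (1 - ζ)) ∧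
        StrictlyCriticallyFinite (member (fsFamily N d) (1 - ζ))) ∧
      (∃ m : ℕ, 1 ≤ m ∧ ∀ t : ℂ,
        (IsEndo (member (fsFamily N d) t) ∧ DML (member (fsFamily N d) t)) ∨
          (IsAlgebraic ℚ t ∧ ∀ ζ : ℂ, ζ ^ d = 1 → ζ ≠ 1 →
            ∃ k : ℕ, IsIntegral ℤ ((m : ℂ) ^ k * (t - (1 - ζ))⁻¹))) ∧
      (4 ≤ d → ∀ E : IntermediateField ℚ ℂ, FiniteDimensional ℚ E →
        {t : ℂ | t ∈ E ∧
          ¬ (IsEndo (member (fsFamily N d) t) ∧ DML (member (fsFamily N d) t))}.Finite)) := by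
  refine ⟨fun N d hd F hF halg A hA0 hA => first hd F hF halg A hA0 hA,
    fun N d hd F hF E hE m hm b hb halg => second hd F hF E m hm b hb halg,
    fun N d hd => ⟨fun ζ h1 h2 => ⟨fs_endo (by omega) h1 h2, fs_strict (by omega) h1 h2⟩,
      fs_first hd, fun hd4 E hE => fs_second hd4 E⟩⟩

end Pool.Agent.Results.MP_b15c9e_ag.CriticallyFiniteMembers
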